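import Mathlib

open MvPolynomial Relation

namespace H11.Buch

/-- The position of an integer in the order `0 ≺ -1 ≺ 1 ≺ -2 ≺ 2 ≺ ⋯`. -/
def rk (a : ℤ) : ℕ := if a < 0 then 2 * a.natAbs - 1 else 2 * a.natAbs

def M (a c : ℤ) : ℤ :=
  if 0 < a * c ∧ rk (a - c) < rk a then M (a - c) c + 1
  else if a * c < 0 ∧ rk (a + c) < rk a then M (a + c) c - 1 else 0
termination_by rk a
decreasing_by all_goals tauto

def L (c : ℤ) : ℤ := if Even c then |c| / 2 else -((|c| + 1) / 2)

def LCR (c d : ℤ) : ℤ := if rk (L c) < rk (L d) then L d else L c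

variable {n : ℕ} (m : MonomialOrder (Fin n))

abbrev R (n : ℕ) := MvPolynomial (Fin n) ℤ

/-- One reduction step `g →_F h`. -/
def Red (F : Finset (R n)) (g h : R n) : Prop :=
  ∃ f ∈ F, ∃ (b : ℤ) (u : Fin n →₀ ℕ), f ≠ 0 ∧ g.coeff (u + m.degree f) ≠ 0 ∧
    rk (g.coeff (u + m.degree f) - b * m.leadingCoeff f) < rk (g.coeff (u + m.degree f)) ∧
    h = g - monomial u b * f

def Irr (F : Finset (R n)) (g : R n) : Prop := ∀ h, ¬ Red m F g h

def IsNF (S : Finset (R n) → R n → R n) : Prop :=
  ∀ F g, ReflTransGen (Red m F) g (S F g) ∧ Irr m F (S F g)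

def IsGB (F : Finset (R n)) : Prop := ∀ g, ∃! h, ReflTransGen (Red m F) g h ∧ Irr m F h

/-- The member `p₁` of the critical pair of `f, g`; `p₂` is `crit g f` with the same `a`. -/
noncomputable def crit (a : ℤ) (f g : R n) : R n :=
  monomial (m.degree f ⊔ m.degree g) a -
    monomial (m.degree f ⊔ m.degree g - m.degree f) (M a (m.leadingCoeff f)) * f

noncomputable def spoly (f g : R n) : R n :=
  crit m (LCR (m.leadingCoeff f) (m.leadingCoeff g)) f g -
    crit m (LCR (m.leadingCoeff f) (m.leadingCoeff g)) g f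

open Classical in
/-- One pass through the loop of Algorithm A', on states `(G, B)`. -/
def Step (S : Finset (R n) → R n → R n) (x y : Finset (R n) × Finset (Sym2 (R n))) : Prop :=
  ∃ f g, s(f, g) ∈ x.2 ∧ y = if S x.1 (spoly m f g) = 0 then (x.1, x.2.erase s(f, g)) else
    (insert (S x.1 (spoly m f g)) x.1,
      x.2.erase s(f, g) ∪ x.1.image fun k => s(k, S x.1 (spoly m f g)))

theorem wf (F : Finset (R n)) : WellFounded fun h g => Red m F g h := by
  have hw : WellFounded (Finsupp.Lex (fun a b : Fin n →₀ ℕ => m.toSyn b < m.toSyn a)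
      fun a b : ℤ => rk a < rk b) :=
    haveI : Std.Trichotomous fun a b : Fin n →₀ ℕ => m.toSyn b < m.toSyn a :=
      ⟨fun a b h1 h2 => m.toSyn.injective (le_antisymm (not_lt.1 h1) (not_lt.1 h2))⟩
    Finsupp.Lex.wellFounded' (by simp [rk]) (InvImage.wf rk wellFounded_lt)
      (InvImage.wf m.toSyn wellFounded_lt)
  refine Subrelation.wf ?_ (InvImage.wf AddMonoidAlgebra.coeff hw)
  rintro h g ⟨f, -, b, u, -, -, h1, rfl⟩
  refine ⟨u + m.degree f, fun d hd => ?_, ?_⟩
  · change coeff d _ = coeff d g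
    rw [coeff_sub, coeff_monomial_mul']
    split_ifs with c
    · rw [m.coeff_eq_zero_of_lt (f := f), mul_zero, sub_zero]
      rw [← add_tsub_cancel_of_le c, map_add, map_add] at hd
      exact lt_of_add_lt_add_left hd
    · simp
  · change rk (coeff _ _) < rk (coeff _ g)
    rwa [coeff_sub, coeff_monomial_mul]

theorem exists_nf (F : Finset (R n)) (g : R n) : ∃ h, ReflTransGen (Red m F) g h ∧ Irr m F h := by
  induction g using (wf m F).induction with
  | _ g ih =>
    by_cases c : Irr m F g
    · exact ⟨g, .refl, c⟩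
    · obtain ⟨h, hh⟩ := not_forall_not.1 c
      obtain ⟨k, h1, h2⟩ := ih h hh
      exact ⟨k, h1.head hh, h2⟩

variable (s : Fin n →₀ ℕ)

noncomputable def F : Finset (R n) := {monomial s 2, monomial s 5}

theorem dg {c : ℤ} (h : c ≠ 0) : m.degree (monomial s c) = s := by
  classical simp [m.degree_monomial, h]

theorem red (a b c : ℤ) (hc : c = 2 ∨ c = 5) (h0 : a ≠ 0) (h : rk (a - b * c) < rk a) :
    Red m (F s) (monomial s a) (monomial s (a - b * c)) := by
  have : c ≠ 0 := by omega
  refine ⟨monomial s c, by rcases hc with rfl | rfl <;> simp [F], b, 0, by simpa, ?_⟩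
  simp only [dg m s this, zero_add, coeff_monomial, if_true, m.leadingCoeff_monomial,
    monomial_mul, map_sub]
  exact ⟨h0, h, trivial⟩

theorem irr0 (G : Finset (R n)) : Irr m G 0 := by rintro h ⟨f, -, b, u, -, h, -⟩; simp at h

theorem irr1 : Irr m (F s) (monomial s (-1)) := by
  rintro h ⟨f, hf, b, u, -, h1, h2, -⟩
  rw [coeff_monomial] at h1 h2
  split_ifs at h1 h2
  · simp only [F, Finset.mem_insert, Finset.mem_singleton] at hf
    rcases hf with rfl | rfl <;> simp only [m.leadingCoeff_monomial, rk] at h2 <;>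
      split_ifs at h2 <;> omega
  · simp at h1

theorem to0 (a : ℤ) (h : a = 1 ∨ a = -1) :
    ReflTransGen (Red m (F s)) (monomial s (3 * a)) 0 := by
  have h1 := red m s (3 * a) a 5 (.inr rfl) (by omega) (by rcases h with rfl | rfl <;> decide)
  have h2 := red m s (3 * a - a * 5) (-a) 2 (.inl rfl) (by omega)
    (by rcases h with rfl | rfl <;> decide)
  rw [show 3 * a - a * 5 - -a * 2 = 0 by ring, monomial_zero] at h2
  exact (ReflTransGen.single h1).tail h2

theorem sp (f g : R n) (hf : f ∈ F s) (hg : g ∈ F s) :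
    spoly m f g = 0 ∨ spoly m f g = monomial s (3 * 1) ∨ spoly m f g = monomial s (3 * -1) := by
  have e1 : M (-3) 2 = -1 := by rw [M]; simp +decide; rw [M]; simp +decide
  have e2 : M (-3) 5 = -1 := by rw [M]; simp +decide; rw [M]; simp +decide
  have e3 : LCR 2 5 = -3 := by decide
  have e4 : LCR 5 2 = -3 := by decide
  simp only [F, Finset.mem_insert, Finset.mem_singleton] at hf hg
  rcases hf with rfl | rfl <;> rcases hg with rfl | rfl <;>
    simp [spoly, crit, dg, e1, e2, e3, e4, monomial_mul, ← map_sub]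

end H11.Buch

open H11.Buch

theorem Pool.Agent.Results.MP_698df0_al.Counter.result (n : ℕ) (m : MonomialOrder (Fin n))
    (s : Fin n →₀ ℕ) : ∃ S, IsNF m S ∧ ¬ IsGB m {monomial s 2, monomial s 5} ∧
      ∀ B ⊆ ({monomial s 2, monomial s 5} : Finset (R n)).sym2,
        ReflTransGen (Step m S) ({monomial s 2, monomial s 5}, B)
          ({monomial s 2, monomial s 5}, ∅) := by
  classical
  choose N hN using exists_nf m
  let S : Finset (R n) → R n → R n := fun G g =>
    if ReflTransGen (Red m G) g 0 then 0 else N G g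
  refine ⟨S, fun G g => ?_, fun h => ?_, fun B => ?_⟩
  · simp only [S]
    split_ifs with c
    exacts [⟨c, irr0 m G⟩, hN G g]
  · have := (h (monomial s (3 * -1))).unique ⟨to0 m s _ (.inr rfl), irr0 m _⟩
      ⟨.single (red m s _ (-1) 2 (.inl rfl) (by simp) (by decide)), by simpa [F] using irr1 m s⟩
    simp [eq_comm (a := (0 : R n))] at this
  · induction B using Finset.induction_on with
    | empty => exact fun _ => .refl
    | insert p B hp ih =>
      intro h
      obtain ⟨f, g⟩ := p
      have h1 := Finset.mk_mem_sym2_iff.1 (h (Finset.mem_insert_self _ _))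
      refine (ih ((Finset.subset_insert _ _).trans h)).head ⟨f, g, Finset.mem_insert_self _ _, ?_⟩
      rw [if_pos, Finset.erase_insert hp]
      refine if_pos ?_
      rcases sp m s f g h1.1 h1.2 with e | e | e <;> rw [e]
      exacts [to0 m s _ (.inl rfl), to0 m s _ (.inr rfl)]
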